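import Pool.Agent.Helper15.FC.St1

set_option autoImplicit false

/-!
Project FC (MP_16cbc0_nt), module RH: the Riemann hypothesis for the Hecke characters of `F[X]`
from the factorization of the L-polynomial, the prime power sums along a progression and the
power sum lemma.
-/

namespace Pool.Agent.Helper72.FC

open Pool.Agent.Helper15.FC Polynomial

theorem hRH (hCMH : StCMH) (hZS : StZS) (hFAC : StFAC) (hHEC : StHEC) (hPWR : StPWR) : StRH := by
  intro F _ _ r N χ ξ hr hne z hz
  have hCM := hCMH F r N χ ξ hr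
  obtain ⟨n, α, -, hLp, hPsi⟩ := hFAC F (Hk r N χ ξ) (r.natDegree + N) hCM
    (hZS F r N χ ξ hr hne)
  obtain ⟨s1, t0, lam, C0, hs1, hlam, hH⟩ := hHEC F r N χ ξ hr
  have hq : (0 : ℝ) < (Fintype.card F : ℝ) := by exact_mod_cast Fintype.card_pos
  -- the root
  have hex : ∃ i, α i * z = 1 := by
    rw [hLp, Polynomial.eval_prod, Finset.prod_eq_zero_iff] at hz
    obtain ⟨i, -, hi⟩ := hz
    refine ⟨i, ?_⟩
    rw [Polynomial.eval_sub, Polynomial.eval_one, Polynomial.eval_mul, Polynomial.eval_C,
      Polynomial.eval_X] at hi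
    exact (sub_eq_zero.1 hi).symm
  obtain ⟨i, hi⟩ := hex
  -- the bound on the inverse roots
  have hb : ‖α i‖ ^ 2 ≤ (Fintype.card F : ℝ) := by
    have hkey := hPWR (n + 1)
      (Fin.cons ((Fintype.card F : ℂ) ^ (2 * s1)) (fun j => α j ^ (2 * s1)))
      (Fin.cons lam (fun _ => 1)) ((Fintype.card F : ℝ) ^ s1) C0 (max t0 1)
      (by
        intro j
        refine Fin.cases ?_ ?_ j
        · rw [Fin.cons_zero]; exact hlam
        · intro j; rw [Fin.cons_succ]; exact zero_le_one)
      (pow_pos hq s1)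
      (by
        intro t ht
        have ht0 : t0 ≤ t := le_trans (le_max_left _ _) ht
        have ht1 : 1 ≤ t := le_trans (le_max_right _ _) ht
        have h1 := hH t ht0
        have h2 : 1 ≤ 2 * s1 * t := by
          have : 0 < 2 * s1 * t := by positivity
          omega
        rw [hPsi (2 * s1 * t) h2] at h1
        have h3 : (∑ j, ((Fin.cons lam (fun _ => 1) : Fin (n + 1) → ℝ) j : ℂ) *
            (Fin.cons ((Fintype.card F : ℂ) ^ (2 * s1)) (fun j => α j ^ (2 * s1)) :
              Fin (n + 1) → ℂ) j ^ t) =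
            -(-(∑ j, α j ^ (2 * s1 * t)) - (lam : ℂ) * (Fintype.card F : ℂ) ^ (2 * s1 * t)) := by
          rw [Fin.sum_univ_succ]
          simp only [Fin.cons_zero, Fin.cons_succ, Complex.ofReal_one, one_mul, ← pow_mul]
          ring
        rw [h3, norm_neg, ← pow_mul]
        exact h1)
      i.succ (by rw [Fin.cons_succ]; exact zero_lt_one)
    rw [Fin.cons_succ, norm_pow, pow_mul] at hkey
    exact (pow_le_pow_iff_left₀ (by positivity) hq.le (by omega)).1 hkey
  have h4 : ‖α i‖ ^ 2 * ‖z‖ ^ 2 = 1 := by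
    rw [← mul_pow, ← norm_mul, hi, norm_one, one_pow]
  rw [← h4]
  exact mul_le_mul_of_nonneg_right hb (by positivity)

end Pool.Agent.Helper72.FC
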